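import Mathlib
import Pool.Agent.H2.MG4

set_option autoImplicit false

open scoped Pointwise

namespace Pool.Agent.Results.MP_47408d_gt.Sequence

/-- Every infinite minimal precompact solvable group has a non-trivial convergent sequence. -/
theorem result (G : Type) [Group G] [τ : TopologicalSpace G] [IsTopologicalGroup G] [T2Space G]
    [Infinite G] (hsolv : IsSolvable G)
    (hpre : ∀ U ∈ nhds (1 : G), ∃ F : Finset G, ∀ x : G, ∃ g ∈ F, x ∈ g • U)
    (hmin : ∀ σ : TopologicalSpace G, @IsTopologicalGroup G σ _ → @T2Space G σ → τ ≤ σ → σ = τ) :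
    ∃ (x : ℕ → G) (p : G), Function.Injective x ∧ Filter.Tendsto x Filter.atTop (nhds p) := by
  obtain ⟨x, hx⟩ := H2.MG.solv_seq hsolv (fun U hU => by
    obtain ⟨F, hF⟩ := hpre U hU
    exact ⟨F, fun x => (hF x).imp fun g hg => ⟨hg.1, Set.mem_smul_set_iff_inv_smul_mem.1 hg.2⟩⟩)
    (H2.MG.LM.of_top fun σ a b c _ => hmin σ a b c)
  exact ⟨x, 1, hx⟩

end Pool.Agent.Results.MP_47408d_gt.Sequence
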